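import Pool.Agent.TH56.CM.Rlx

/-!
# Packing `2n+1` copies of each of several trees into `K_{2n+1}`

Let `T_1, …, T_k` be trees with `m_1, …, m_k ≥ 1` edges, and let `L_i` be the number of leaves of
the tree obtained from `T_i` by deleting all its leaves.  If
`∑ (m_i + 2 (L_i - 2) min (⌊log₂ (L_i - 1)⌋, 6)) ≤ n` then the family which consists of `2n+1` copies
of each of the trees packs into `K_{2n+1}`.
-/

set_option autoImplicit false

namespace Pool.Agent.Results.MP_80c395_co.RepeatedTrees

/-- The number of the vertices of `T` which are not leaves and have at most one neighbour that is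
not a leaf, i.e. of the vertices of degree at most `1` of the tree obtained from `T` by deleting all
leaves. -/
noncomputable def derivedLeaves {V : Type} (T : SimpleGraph V) : ℕ :=
  {x : V | 2 ≤ (T.neighborSet x).ncard ∧
    {y : V | T.Adj x y ∧ 2 ≤ (T.neighborSet y).ncard}.ncard ≤ 1}.ncard

/-- Let `T i` (`i : Fin k`) be finite trees with at least one edge, `m i` the number of edges of
`T i`, `L i` the number of leaves of the tree obtained from `T i` by deleting all leaves, and assume
that the sum of the numbers `m i + 2 (L i - 2) min (⌊log₂ (L i - 1)⌋, 6)` (truncated subtraction) is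
at most `n`.  Then the family which contains each `T i` exactly `2n+1` times packs into `K_{2n+1}`:
there are injective maps `φ i a` (`i : Fin k`, `a : Fin (2n+1)`) of the vertices of `T i` to the
`2n+1` elements of `Fin (2n+1)` such that the images of edges under different maps of the family
are different. -/
theorem result (n k : ℕ) (V : Fin k → Type) [∀ i, Fintype (V i)] (T : ∀ i, SimpleGraph (V i))
    (hT : ∀ i, (T i).IsTree) (h1 : ∀ i, 1 ≤ (T i).edgeSet.ncard)
    (hn : ∑ i, ((T i).edgeSet.ncard +
      2 * (derivedLeaves (T i) - 2) * min (Nat.log 2 (derivedLeaves (T i) - 1)) 6) ≤ n) :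
    ∃ φ : ∀ i, Fin (2 * n + 1) → V i → Fin (2 * n + 1),
      (∀ i a, Function.Injective (φ i a)) ∧
      ∀ i j a b (u v : V i) (u' v' : V j), (T i).Adj u v → (T j).Adj u' v' →
        s(φ i a u, φ i a v) = s(φ j b u', φ j b v') → i = j ∧ a = b := by
  classical
  have h2 : ∀ i, ∃ (M θ : ℕ) (f : V i → ℕ), Function.Injective f ∧ (∀ x, f x ≤ M) ∧
      (∀ x y, (T i).Adj x y → (f x < θ ∧ θ ≤ f y) ∨ (f y < θ ∧ θ ≤ f x)) ∧
      (∀ x y x' y', (T i).Adj x y → (T i).Adj x' y' → f x < θ → f x' < θ →
        f y + f x' = f y' + f x → x = x' ∧ y = y') ∧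
      M ≤ (T i).edgeSet.ncard +
        2 * (derivedLeaves (T i) - 2) * min (Nat.log 2 (derivedLeaves (T i) - 1)) 6 := by
    intro i
    obtain ⟨col, hcol⟩ := Pool.Agent.TH56.CL.exists_col (hT i)
    obtain ⟨M, hR, f6⟩ := Pool.Agent.TH56.CM.rlx_both (hT i) (h1 i)
    obtain ⟨θ, f, f1, f2, -, -, -, f4, f5⟩ := hR.bip (h1 i) col hcol true
    exact ⟨M, θ, f, f1, f2, f4, f5, f6⟩
  choose M θ f f1 f2 f4 f5 f6 using h2
  have hMn : ∑ i, M i ≤ n := (Finset.sum_le_sum fun i _ => f6 i).trans hn
  let h : Fin k → ℕ := fun i => ∑ j ∈ Finset.univ.filter (fun j => j < i), M j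
  have hh1 : ∀ i, h i + M i ≤ n := by
    intro i
    refine le_trans ?_ hMn
    have h3 : h i + M i = ∑ j ∈ insert i (Finset.univ.filter (fun j => j < i)), M j := by
      rw [Finset.sum_insert (by simp), add_comm]
    rw [h3]
    exact Finset.sum_le_sum_of_subset (Finset.subset_univ _)
  have hh2 : ∀ i j, i < j → h i + M i ≤ h j := by
    intro i j hij
    have h3 : h i + M i = ∑ l ∈ insert i (Finset.univ.filter (fun l => l < i)), M l := by
      rw [Finset.sum_insert (by simp), add_comm]
    rw [h3]
    apply Finset.sum_le_sum_of_subset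
    intro l hl
    rw [Finset.mem_insert, Finset.mem_filter] at hl
    rw [Finset.mem_filter]
    refine ⟨Finset.mem_univ _, ?_⟩
    rcases hl with hl | hl
    · rw [hl]
      exact hij
    · exact hl.2.trans hij
  let g : ∀ i, V i → ℕ := fun i x => if f i x < θ i then f i x else f i x + h i
  have hg1 : ∀ i x, f i x < θ i → g i x = f i x := fun i x hx => if_pos hx
  have hg2 : ∀ i x, θ i ≤ f i x → g i x = f i x + h i := fun i x hx => if_neg (by omega)
  have hgn : ∀ i x, g i x ≤ n := by
    intro i x
    have h3 := hh1 i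
    have h4 := f2 i x
    rcases lt_or_ge (f i x) (θ i) with h5 | h5
    · rw [hg1 i x h5]
      omega
    · rw [hg2 i x h5]
      omega
  have hginj : ∀ i x y, g i x = g i y → x = y := by
    intro i x y hxy
    apply f1 i
    rcases lt_or_ge (f i x) (θ i) with h5 | h5 <;> rcases lt_or_ge (f i y) (θ i) with h6 | h6
    · rw [hg1 i x h5, hg1 i y h6] at hxy
      exact hxy
    · rw [hg1 i x h5, hg2 i y h6] at hxy
      omega
    · rw [hg2 i x h5, hg1 i y h6] at hxy
      omega
    · rw [hg2 i x h5, hg2 i y h6] at hxy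
      omega
  -- the shifts
  let φ : ∀ i, Fin (2 * n + 1) → V i → Fin (2 * n + 1) := fun i a x =>
    ⟨(g i x + a) % (2 * n + 1), Nat.mod_lt _ (by omega)⟩
  have hφ : ∀ i a x j b y, φ i a x = φ j b y → (g i x + a) ≡ (g j y + b) [MOD (2 * n + 1)] :=
    fun i a x j b y h3 => congrArg (fun z : Fin (2 * n + 1) => (z : ℕ)) h3
  have hmod : ∀ x y : ℕ, x ≡ y [MOD (2 * n + 1)] → x < y + (2 * n + 1) → y < x + (2 * n + 1) →
      x = y := by
    intro x y h3 h4 h5
    exact Nat.ModEq.eq_of_abs_lt h3 (by rw [abs_lt]; constructor <;> omega)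
  -- the edges, oriented
  have hor : ∀ i (u v : V i), (T i).Adj u v → ∃ x y, (T i).Adj x y ∧ f i x < θ i ∧ θ i ≤ f i y ∧
      (∀ a, s(φ i a u, φ i a v) = s(φ i a x, φ i a y)) := by
    intro i u v huv
    rcases f4 i u v huv with h3 | h3
    · exact ⟨u, v, huv, h3.1, h3.2, fun _ => rfl⟩
    · exact ⟨v, u, huv.symm, h3.1, h3.2, fun _ => Sym2.eq_swap⟩
  refine ⟨φ, ?_, ?_⟩
  · intro i a x y hxy
    have h3 := Nat.ModEq.add_right_cancel' _ (hφ i a x i a y hxy)
    have h4 := hgn i x
    have h5 := hgn i y
    exact hginj i x y (hmod _ _ h3 (by omega) (by omega))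
  · intro i j a b u v u' v' huv huv' he
    obtain ⟨x, y, hxy, hx, hy, h3⟩ := hor i u v huv
    obtain ⟨x', y', hxy', hx', hy', h4⟩ := hor j u' v' huv'
    rw [h3 a, h4 b] at he
    have k1 := hh1 i
    have k2 := hh1 j
    have k3 := f2 i y
    have k4 := f2 j y'
    have k5 := hg1 i x hx
    have k6 := hg1 j x' hx'
    have k7 := hg2 i y hy
    have k8 := hg2 j y' hy'
    rcases Sym2.eq_iff.1 he with ⟨e1, e2⟩ | ⟨e1, e2⟩
    · have e3 := hφ _ _ _ _ _ _ e1
      have e4 := hφ _ _ _ _ _ _ e2
      -- the differences are equal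
      have e5 : g i y + g j x' = g j y' + g i x := by
        apply hmod
        · have e6 := e4.add e3.symm
          have e7 : (g i y + g j x') + (a + b : ℕ) ≡ (g j y' + g i x) + (a + b : ℕ)
              [MOD (2 * n + 1)] := by
            have e8 : g i y + (a : ℕ) + (g j x' + b) = (g i y + g j x') + (a + b : ℕ) := by ring
            have e9 : g j y' + (b : ℕ) + (g i x + a) = (g j y' + g i x) + (a + b : ℕ) := by ring
            rw [← e8, ← e9]
            exact e6
          exact Nat.ModEq.add_right_cancel' _ e7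
        · omega
        · omega
      have e10 : i = j := by
        rcases lt_trichotomy i j with h5 | h5 | h5
        · have := hh2 i j h5
          omega
        · exact h5
        · have := hh2 j i h5
          omega
      subst e10
      obtain ⟨e11, e12⟩ := f5 i x y x' y' hxy hxy' hx hx' (by omega)
      subst e11
      have e13 := Nat.ModEq.add_left_cancel' _ e3
      exact ⟨rfl, Fin.ext (hmod _ _ e13 (by omega) (by omega))⟩
    · exfalso
      have e3 := hφ _ _ _ _ _ _ e1
      have e4 := hφ _ _ _ _ _ _ e2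
      -- the sum of the differences is divisible by `2 n + 1`
      have e6 : (g i y + g j y') + (a + b : ℕ) ≡ (g i x + g j x') + (a + b : ℕ)
          [MOD (2 * n + 1)] := by
        have e7 := e4.add e3.symm
        have e8 : g i y + (a : ℕ) + (g j y' + b) = (g i y + g j y') + (a + b : ℕ) := by ring
        have e9 : g j x' + (b : ℕ) + (g i x + a) = (g i x + g j x') + (a + b : ℕ) := by ring
        rw [← e8, ← e9]
        exact e7
      have e10 := Nat.ModEq.add_right_cancel' _ e6
      have := hmod _ _ e10 (by omega) (by omega)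
      omega

end Pool.Agent.Results.MP_80c395_co.RepeatedTrees
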